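import Mathlib
import Pool.Agent.Lib.helper19.Mazur

namespace Pool.Agent.Results.MP_04172d_lc.Yes

open Real

/-- A two-point set: it meets every straight line `α x + β y = γ` in exactly two points. -/
def IsMazurkiewicz (M : Set (ℝ × ℝ)) : Prop :=
  ∀ α β γ : ℝ, α ≠ 0 ∨ β ≠ 0 → {p ∈ M | α * p.1 + β * p.2 = γ}.encard = 2

def graph (f : ℝ → ℝ) : Set (ℝ × ℝ) := {p | p.2 = f p.1}

/-- The graph of `f` is a basis of `ℝ²` over `ℚ`. -/
def IsHamel (f : ℝ → ℝ) : Prop :=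
  LinearIndepOn ℚ id (graph f) ∧ Submodule.span ℚ (graph f) = ⊤

/-- Counterclockwise rotation by `θ` about the origin. -/
noncomputable def rot (θ : ℝ) (p : ℝ × ℝ) : ℝ × ℝ :=
  (cos θ * p.1 - sin θ * p.2, sin θ * p.1 + cos θ * p.2)

theorem result : ∃ M : Set (ℝ × ℝ), IsMazurkiewicz M ∧
    ∀ θ : ℝ, ∃ f : ℝ → ℝ, IsHamel f ∧ graph f ⊆ rot θ '' M := by
  obtain ⟨M, h1, h2⟩ := Pool.Agent.Lib.helper19.Mazur.main
  refine ⟨M, h1, fun θ => ?_⟩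
  obtain ⟨f, h3, h4⟩ := h2 θ
  exact ⟨f false, h3 false, fun p hp => h4.ge (Or.inl hp)⟩

end Pool.Agent.Results.MP_04172d_lc.Yes
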